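import Pool.Agent.H19.UNI.Stmts

set_option autoImplicit false

namespace Pool.Agent.H19.UNI

open Finset

namespace RX4

/-- the cubic form -/
noncomputable def c {m : ℕ} [NeZero m] (i j k : Fin m) : ℝ :=
  if i = 0 then
    (if j = 0 then (if k = 0 then 0 else 1) else (if k = 0 then 1 else if j = k then (j.val : ℝ) else 0))
  else
    (if j = 0 then (if k = 0 then 1 else if i = k then (i.val : ℝ) else 0)
      else (if k = 0 then (if i = j then (i.val : ℝ) else 0) else 0))

variable {m : ℕ} [NeZero m]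

theorem c_symm1 (i j k : Fin m) : c i j k = c j i k := by
  unfold c
  by_cases hi : i = 0 <;> by_cases hj : j = 0 <;> by_cases hk : k = 0 <;>
    simp only [hi, hj, hk, if_true, if_false]
  by_cases h : i = j
  · subst h; simp
  · rw [if_neg h, if_neg (Ne.symm h)]

theorem c_symm2 (i j k : Fin m) : c i j k = c i k j := by
  unfold c
  by_cases hi : i = 0 <;> by_cases hj : j = 0 <;> by_cases hk : k = 0 <;>
    simp only [hi, hj, hk, if_true, if_false]
  by_cases h : j = k
  · subst h; simp
  · rw [if_neg h, if_neg (Ne.symm h)]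

/-- contraction -/
noncomputable def T (h i : Fin m) (f : Fin m → ℝ) : ℝ := ∑ r, c h i r * f r

theorem T00 (f : Fin m → ℝ) : T 0 0 f = ∑ r, if r = 0 then 0 else f r := by
  unfold T c
  refine Finset.sum_congr rfl fun r _ => ?_
  by_cases hr : r = 0 <;> simp [hr]

theorem T0i {i : Fin m} (hi : i ≠ 0) (f : Fin m → ℝ) : T 0 i f = f 0 + i.val * f i := by
  have e : ∀ r : Fin m, c 0 i r * f r = (if r = 0 then f 0 else 0) + (if r = i then i.val * f i else 0) := by
    intro r
    unfold c
    by_cases hr : r = 0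
    · subst hr
      have : (0 : Fin m) ≠ i := Ne.symm hi
      simp [hi, this]
    · by_cases hri : r = i
      · subst hri; simp [hi]
      · have h1 : i ≠ r := Ne.symm hri
        simp [hi, hr, hri, h1]
  unfold T
  rw [Finset.sum_congr rfl fun r _ => e r, Finset.sum_add_distrib]
  simp

theorem T_symm (h i : Fin m) (f : Fin m → ℝ) : T h i f = T i h f := by
  unfold T
  exact Finset.sum_congr rfl fun r _ => by rw [c_symm1]

theorem Ti0 {i : Fin m} (hi : i ≠ 0) (f : Fin m → ℝ) : T i 0 f = f 0 + i.val * f i := by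
  rw [T_symm]; exact T0i hi f

theorem Tii {i : Fin m} (hi : i ≠ 0) (f : Fin m → ℝ) : T i i f = i.val * f 0 := by
  have e : ∀ r : Fin m, c i i r * f r = if r = 0 then i.val * f 0 else 0 := by
    intro r
    unfold c
    by_cases hr : r = 0
    · subst hr; simp [hi]
    · simp [hi, hr]
  unfold T
  rw [Finset.sum_congr rfl fun r _ => e r]
  simp

theorem Tij {i j : Fin m} (hi : i ≠ 0) (hj : j ≠ 0) (hij : i ≠ j) (f : Fin m → ℝ) :
    T i j f = 0 := by
  have e : ∀ r : Fin m, c i j r * f r = 0 := by
    intro r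
    unfold c
    by_cases hr : r = 0
    · simp [hi, hj, hr, hij]
    · simp [hi, hj, hr]
  unfold T
  rw [Finset.sum_congr rfl fun r _ => e r]
  simp

theorem val_ne {i : Fin m} (hi : i ≠ 0) : (i.val : ℝ) ≠ 0 := by
  have : i.val ≠ 0 := fun h => hi (Fin.ext (by simpa using h))
  exact_mod_cast this

theorem val_sub {i j : Fin m} (hij : i ≠ j) : (j.val : ℝ) - i.val ≠ 0 := by
  have : j.val ≠ i.val := fun h => hij (Fin.ext h.symm)
  have h2 : (j.val : ℝ) ≠ i.val := by exact_mod_cast this
  exact sub_ne_zero.2 h2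

end RX4

open RX4 in
/-- Row RX4. -/
theorem rx4 : RX4Stmt := by
  intro m hm
  haveI : NeZero m := ⟨by omega⟩
  refine ⟨c, c_symm1, c_symm2, ?_⟩
  intro b s1 s2 s3 hE
  have E : ∀ h i j k l, T h i (fun r => b r j k l) - T i j (fun r => b r h k l)
      + T j k (fun r => b r h i l) - T h k (fun r => b r i j l) = 0 := by
    intro h i j k l
    have := hE h i j k l
    simp only [Finset.sum_sub_distrib, Finset.sum_add_distrib] at this
    simpa only [T] using this
  -- a third nonzero index
  have third : ∀ j k : Fin m, ∃ i : Fin m, i ≠ 0 ∧ i ≠ j ∧ i ≠ k := by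
    intro j k
    by_contra hcon
    have hsub : (Finset.univ : Finset (Fin m)) ⊆ {0, j, k} := by
      intro i _
      by_contra hi
      simp only [Finset.mem_insert, Finset.mem_singleton, not_or] at hi
      exact hcon ⟨i, hi.1, hi.2.1, hi.2.2⟩
    have h1 := Finset.card_le_card hsub
    have h2 : ({0, j, k} : Finset (Fin m)).card ≤ 3 := Finset.card_le_three
    rw [Finset.card_univ, Fintype.card_fin] at h1
    omega
  -- (A)
  have A : ∀ j k l, j ≠ 0 → k ≠ 0 → j ≠ k → b 0 j k l = 0 := by
    intro j k l hj hk hjk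
    obtain ⟨i, hi, hij, hik⟩ := third j k
    have h := E i i j k l
    rw [Tii hi, Tij hi hj hij, Tij hj hk hjk, Tij hi hk hik] at h
    have h' : (i.val : ℝ) * b 0 j k l = 0 := by linarith
    exact (mul_eq_zero.1 h').resolve_left (val_ne hi)
  have e1 : ∀ i j l, i ≠ 0 → j ≠ 0 → i ≠ j → (i.val : ℝ) * b 0 j j l + j.val * b 0 i i l = 0 := by
    intro i j l hi hj hij
    have h := E i i j j l
    rw [Tii hi, Tij hi hj hij, Tii hj] at h
    linarith
  have B3 : ∀ i, i ≠ 0 → b 0 i i i = 0 := by
    intro i hi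
    obtain ⟨j, hj, hji, _⟩ := third i i
    have h := e1 i j i hi hj (Ne.symm hji)
    have h2 : b 0 j j i = 0 := by
      rw [s3, A j i j hj hi hji]
    rw [h2] at h
    have h' : (j.val : ℝ) * b 0 i i i = 0 := by linarith
    exact (mul_eq_zero.1 h').resolve_left (val_ne hj)
  have C2 : ∀ i, i ≠ 0 → b 0 i i 0 = 0 := by
    intro i hi
    obtain ⟨j, hj, hji, _⟩ := third i i
    obtain ⟨k, hk, hki, hkj⟩ := third i j
    have h1 := e1 i j 0 hi hj (Ne.symm hji)
    have h2 := e1 i k 0 hi hk (Ne.symm hki)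
    have h3 := e1 j k 0 hj hk (Ne.symm hkj)
    have vi := val_ne hi
    have vj := val_ne hj
    have vk := val_ne hk
    have key : (2 * (j.val : ℝ) * k.val) * b 0 i i 0 = 0 := by
      linear_combination (k.val : ℝ) * h1 + (j.val : ℝ) * h2 - (i.val : ℝ) * h3
    have h5 : (2 * (j.val : ℝ) * k.val) ≠ 0 := by positivity
    exact (mul_eq_zero.1 key).resolve_left h5
  -- (B)
  have B : ∀ j k l, j ≠ 0 → k ≠ 0 → l ≠ 0 → b 0 j k l = 0 := by
    intro j k l hj hk hl
    by_cases hjk : j = k
    · subst hjk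
      by_cases hjl : j = l
      · subst hjl; exact B3 j hj
      · rw [s3]; exact A j l j hj hl hjl
    · exact A j k l hj hk hjk
  have C : ∀ j k, j ≠ 0 → k ≠ 0 → b 0 j k 0 = 0 := by
    intro j k hj hk
    by_cases hjk : j = k
    · subst hjk; exact C2 j hj
    · exact A j k 0 hj hk hjk
  have e3 : ∀ i j l, i ≠ 0 → j ≠ 0 → i ≠ j →
      (i.val : ℝ) * b 0 j 0 l + (b 0 i i l + j.val * b j i i l) - (b 0 i j l + i.val * b i i j l) = 0 := by
    intro i j l hi hj hij
    have h := E i i j 0 l
    rw [Tii hi, Tij hi hj hij, Ti0 hj, Ti0 hi] at h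
    linarith
  have zf : ∀ j l, j ≠ 0 → l ≠ 0 → b 0 j 0 l = 0 := by
    intro j l hj hl
    rw [s3]; exact C j l hj hl
  have D3 : ∀ i j l, i ≠ 0 → j ≠ 0 → l ≠ 0 → i ≠ j → b i i j l = 0 := by
    intro i j l hi hj hl hij
    have h := e3 i j l hi hj hij
    rw [zf j l hj hl, B i i l hi hi hl, B i j l hi hj hl] at h
    have h2 : b j i i l = b i i j l := by rw [s1, s2]
    rw [h2] at h
    have h' : ((j.val : ℝ) - i.val) * b i i j l = 0 := by linarith
    exact (mul_eq_zero.1 h').resolve_left (val_sub hij)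
  have D5 : ∀ i j k l, i ≠ 0 → j ≠ 0 → k ≠ 0 → l ≠ 0 → i ≠ j → i ≠ k → j ≠ k → b i j k l = 0 := by
    intro i j k l hi hj hk hl hij hik hjk
    have h := E i k j 0 l
    rw [Tij hi hk hik, Tij hk hj (Ne.symm hjk), Ti0 hj, Ti0 hi] at h
    rw [B i k l hi hk hl, B k j l hk hj hl] at h
    have h2 : b j i k l = b i j k l := s1 _ _ _ _
    have h3 : b i k j l = b i j k l := s2 _ _ _ _
    rw [h2, h3] at h
    have h' : ((j.val : ℝ) - i.val) * b i j k l = 0 := by linarith
    exact (mul_eq_zero.1 h').resolve_left (val_sub hij)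
  have Z3 : ∀ j, j ≠ 0 → b 0 0 0 j = 0 := by
    intro j hj
    obtain ⟨i, hi, hij, _⟩ := third j j
    have h := e3 i j 0 hi hj hij
    have t1 : b j i i 0 = 0 := by
      have : b j i i 0 = b 0 j i i := by rw [s3, s2, s1]
      rw [this]; exact B j i i hj hi hi
    have t2 : b i i j 0 = 0 := by
      have : b i i j 0 = b 0 i i j := by rw [s3, s2, s1]
      rw [this]; exact B i i j hi hi hj
    rw [C i i hi hi, C i j hi hj, t1, t2] at h
    have t3 : b 0 j 0 0 = b 0 0 0 j := by rw [s2, s3]
    rw [t3] at h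
    have h' : (i.val : ℝ) * b 0 0 0 j = 0 := by linarith
    exact (mul_eq_zero.1 h').resolve_left (val_ne hi)
  have e4 : ∀ i l, i ≠ 0 → (∑ r, if r = 0 then 0 else b r i i l) - (b 0 0 i l + i.val * b i 0 i l)
      + i.val * b 0 0 0 l - (b 0 i 0 l + i.val * b i i 0 l) = 0 := by
    intro i l hi
    have h := E 0 0 i i l
    rw [T00, T0i hi, Tii hi] at h
    have t1 : b 0 i 0 l = b 0 0 i l := s2 _ _ _ _
    have t2 : b i i 0 l = b i 0 i l := s2 _ _ _ _
    rw [t1, t2]
    linarith
  have F4 : ∀ i, i ≠ 0 → b i i i i = 0 := by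
    intro i hi
    have h := e4 i i hi
    have t0 : (∑ r, if r = 0 then 0 else b r i i i) = b i i i i := by
      rw [Finset.sum_eq_single i]
      · simp [hi]
      · intro r _ hri
        by_cases hr : r = 0
        · simp [hr]
        · rw [if_neg hr]
          have : b r i i i = b i i i r := by rw [s1, s2, s3]
          rw [this, s3]
          exact D3 i r i hi hr hi (Ne.symm hri)
      · intro h; exact absurd (Finset.mem_univ _) h
    have t1 : b 0 0 i i = 0 := by
      have : b 0 0 i i = b 0 i i 0 := by rw [s2, s3]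
      rw [this]; exact C i i hi hi
    have t2 : b i 0 i i = 0 := by
      rw [s1]; exact B i i i hi hi hi
    have t3 : b 0 i 0 i = 0 := zf i i hi hi
    have t4 : b i i 0 i = 0 := by
      rw [s2, s1]; exact B i i i hi hi hi
    rw [t0, t1, t2, t3, t4, Z3 i hi] at h
    linarith
  have Z4 : b 0 0 0 0 = 0 := by
    obtain ⟨i, hi, _, _⟩ := third 0 0
    have h := e4 i 0 hi
    have t0 : (∑ r, if r = 0 then 0 else b r i i 0) = 0 := by
      refine Finset.sum_eq_zero fun r _ => ?_
      by_cases hr : r = 0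
      · simp [hr]
      · rw [if_neg hr]
        have : b r i i 0 = b 0 r i i := by rw [s3, s2, s1]
        rw [this]; exact B r i i hr hi hi
    have t1 : b 0 0 i 0 = 0 := by
      rw [s3]; exact Z3 i hi
    have t2 : b i 0 i 0 = 0 := by
      have : b i 0 i 0 = b 0 i i 0 := s1 _ _ _ _
      rw [this]; exact C i i hi hi
    have t3 : b 0 i 0 0 = 0 := by
      have : b 0 i 0 0 = b 0 0 0 i := by rw [s2, s3]
      rw [this]; exact Z3 i hi
    have t4 : b i i 0 0 = 0 := by
      have : b i i 0 0 = b 0 i i 0 := by rw [s2, s1]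
      rw [this]; exact C i i hi hi
    rw [t0, t1, t2, t3, t4] at h
    have h' : (i.val : ℝ) * b 0 0 0 0 = 0 := by linarith
    exact (mul_eq_zero.1 h').resolve_left (val_ne hi)
  -- all entries with first index zero
  have G0 : ∀ j k l, b 0 j k l = 0 := by
    intro j k l
    by_cases hj : j = 0
    · subst hj
      by_cases hk : k = 0
      · subst hk
        by_cases hl : l = 0
        · subst hl; exact Z4
        · exact Z3 l hl
      · by_cases hl : l = 0
        · subst hl; rw [s3]; exact Z3 k hk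
        · have : b 0 0 k l = b 0 k l 0 := by rw [s2, s3]
          rw [this]; exact C k l hk hl
    · by_cases hk : k = 0
      · subst hk
        by_cases hl : l = 0
        · subst hl
          have : b 0 j 0 0 = b 0 0 0 j := by rw [s2, s3]
          rw [this]; exact Z3 j hj
        · exact zf j l hj hl
      · by_cases hl : l = 0
        · subst hl; exact C j k hj hk
        · exact B j k l hj hk hl
  intro i j k l
  by_cases hi : i = 0
  · subst hi; exact G0 j k l
  by_cases hj : j = 0
  · subst hj; rw [s1]; exact G0 _ _ _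
  by_cases hk : k = 0
  · subst hk; rw [s2, s1]; exact G0 _ _ _
  by_cases hl : l = 0
  · subst hl; rw [s3, s2, s1]; exact G0 _ _ _
  by_cases hij : i = j
  · subst hij
    by_cases hik : i = k
    · subst hik
      by_cases hil : i = l
      · subst hil; exact F4 i hi
      · rw [s3]; exact D3 i l i hi hl hi hil
    · exact D3 i k l hi hk hl hik
  · by_cases hik : i = k
    · subst hik
      rw [s2]; exact D3 i j l hi hj hl hij
    · by_cases hjk : j = k
      · subst hjk
        rw [s1, s2]; exact D3 j i l hj hi hl (Ne.symm hij)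
      · exact D5 i j k l hi hj hk hl hij hik hjk

end Pool.Agent.H19.UNI
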